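import Pool.Agent.Q93.FA.Pieces

set_option autoImplicit false

/-!
# Edge boundaries of families with few pieces
-/

namespace Pool.Agent.Q146.RI

open Finset

variable {α : Type} [Fintype α] [DecidableEq α]

/-- The pairs `(A, c)` with `c ∈ K`, `c ∉ A` and exactly one of `A`, `A ∪ {c}` in `F`. -/
def edges (K : Finset α) (F : Finset (Finset α)) : Finset (Finset α × α) :=
  univ.filter fun p => p.2 ∈ K ∧ p.2 ∉ p.1 ∧ (p.1 ∈ F ↔ insert p.2 p.1 ∉ F)

lemma mem_edges {K : Finset α} {F : Finset (Finset α)} {p : Finset α × α} :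
    p ∈ edges K F ↔ p.2 ∈ K ∧ p.2 ∉ p.1 ∧ (p.1 ∈ F ↔ insert p.2 p.1 ∉ F) := by
  simp [edges]

lemma edges_compl (K : Finset α) (F : Finset (Finset α)) : edges K Fᶜ = edges K F := by
  ext p
  rw [mem_edges, mem_edges, mem_compl, mem_compl]
  tauto

/-- the sign of `c` in `A` -/
def sg (c : α) (A : Finset α) : ℝ := if c ∈ A then 1 else -1

/-- changing the membership of `c` -/
def tog (c : α) (A : Finset α) : Finset α := if c ∈ A then A.erase c else insert c A

omit [Fintype α] in
lemma tog_tog (c : α) (A : Finset α) : tog c (tog c A) = A := by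
  unfold tog
  split_ifs with h1 h2 h3
  · exact absurd h2 (notMem_erase c A)
  · exact insert_erase h1
  · exact erase_insert h1
  · exact absurd (mem_insert_self c A) h3

omit [Fintype α] in
lemma sg_tog (c : α) (A : Finset α) : sg c (tog c A) = - sg c A := by
  unfold sg tog
  split_ifs with h1 h2 h3
  · exact absurd h2 (notMem_erase c A)
  · ring
  · ring
  · exact absurd (mem_insert_self c A) h3

omit [Fintype α] in
lemma sg_tog_ne {c c' : α} (h : c ≠ c') (A : Finset α) : sg c' (tog c A) = sg c' A := by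
  have h' : c' ≠ c := h.symm
  unfold sg tog
  split_ifs with h1 h2 h3 h4 h5 h6 <;> simp_all [mem_erase, mem_insert]

/-- the equivalence -/
def togE (c : α) : Finset α ≃ Finset α where
  toFun := tog c
  invFun := tog c
  left_inv := tog_tog c
  right_inv := tog_tog c

lemma sum_sg (c : α) : ∑ A : Finset α, sg c A = 0 := by
  have h := (togE c).sum_comp (fun A => sg c A)
  have h2 : ∑ A : Finset α, sg c ((togE c) A) = - ∑ A : Finset α, sg c A := by
    rw [← sum_neg_distrib]
    exact sum_congr rfl fun A _ => sg_tog c A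
  linarith

lemma sum_sg_sg {c c' : α} (hc : c ≠ c') : ∑ A : Finset α, sg c A * sg c' A = 0 := by
  have h := (togE c).sum_comp (fun A => sg c A * sg c' A)
  have h2 : ∑ A : Finset α, sg c ((togE c) A) * sg c' ((togE c) A) =
      - ∑ A : Finset α, sg c A * sg c' A := by
    rw [← sum_neg_distrib]
    refine sum_congr rfl fun A _ => ?_
    have h3 : sg c ((togE c) A) = - sg c A := sg_tog c A
    have h4 : sg c' ((togE c) A) = sg c' A := sg_tog_ne hc A
    rw [h3, h4]
    ring
  linarith

lemma sg_sq (c : α) (A : Finset α) : sg c A * sg c A = 1 := by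
  unfold sg
  split_ifs <;> ring

lemma sum_sq (K : Finset α) :
    ∑ A : Finset α, (∑ c ∈ K, sg c A) ^ 2 = #K * 2 ^ (Fintype.card α) := by
  have h1 : ∀ A : Finset α, (∑ c ∈ K, sg c A) ^ 2 = ∑ c ∈ K, ∑ c' ∈ K, sg c A * sg c' A := by
    intro A
    rw [sq, sum_mul_sum]
  rw [sum_congr rfl fun A _ => h1 A, sum_comm]
  have h2 : ∀ c ∈ K, ∑ A : Finset α, ∑ c' ∈ K, sg c A * sg c' A = 2 ^ (Fintype.card α) := by
    intro c hc
    rw [sum_comm, sum_eq_single c]
    · rw [sum_congr rfl fun A _ => sg_sq c A, sum_const, card_univ, Fintype.card_finset]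
      simp
    · intro c' _ hne
      exact sum_sg_sg (Ne.symm hne)
    · intro h
      exact absurd hc h
  rw [sum_congr rfl h2, sum_const, nsmul_eq_mul]

lemma sum_abs_le (K : Finset α) :
    ∑ A : Finset α, |∑ c ∈ K, sg c A| ≤ √(#K) * 2 ^ (Fintype.card α) := by
  have h1 : (∑ A : Finset α, |∑ c ∈ K, sg c A|) ^ 2 ≤
      (#K : ℝ) * (2 ^ (Fintype.card α)) ^ 2 := by
    have h2 := sq_sum_le_card_mul_sum_sq (s := (univ : Finset (Finset α)))
      (f := fun A => |∑ c ∈ K, sg c A|)
    simp only [sq_abs] at h2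
    rw [sum_sq, card_univ, Fintype.card_finset] at h2
    calc _ ≤ _ := h2
      _ = _ := by push_cast; ring
  have h3 : (√(#K : ℝ) * 2 ^ (Fintype.card α)) ^ 2 = (#K : ℝ) * (2 ^ (Fintype.card α)) ^ 2 := by
    rw [mul_pow, Real.sq_sqrt (Nat.cast_nonneg _)]
  rw [← h3] at h1
  exact (abs_le_of_sq_le_sq' h1 (by positivity)).2

/-- the boundary of a family which is increasing in the directions of `K` -/
lemma edges_up (K : Finset α) (U : Finset (Finset α)) (hU : ∀ A ∈ U, ∀ c ∈ K, insert c A ∈ U) :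
    (#(edges K U) : ℝ) ≤ √(#K) / 2 * 2 ^ (Fintype.card α) := by
  have h1 : (#(edges K U) : ℝ) = ∑ A ∈ U, ∑ c ∈ K, sg c A := by
    rw [sum_comm]
    have h2 : #(edges K U) = ∑ c ∈ K, #((edges K U).filter fun p => p.2 = c) :=
      card_eq_sum_card_fiberwise fun p hp => (mem_edges.1 hp).1
    rw [h2]
    push_cast
    refine sum_congr rfl fun c hc => ?_
    -- the edges in direction `c`
    have h3 : #((edges K U).filter fun p => p.2 = c) =
        #((U.filter fun A => c ∈ A).filter fun A => A.erase c ∉ U) := by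
      refine card_nbij' (fun p => insert c p.1) (fun A => (A.erase c, c)) ?_ ?_ ?_ ?_
      · rintro ⟨A, c'⟩ hp
        obtain ⟨hp1, hp2⟩ := mem_filter.1 hp
        simp only at hp2
        subst hp2
        obtain ⟨_, h5, h6⟩ := mem_edges.1 hp1
        simp only at h5 h6
        simp only [mem_coe, mem_filter]
        have h7 : A ∉ U := fun h8 => (h6.1 h8) (hU A h8 _ hc)
        have h9 : insert c' A ∈ U := by
          by_contra h10
          exact h7 (h6.2 h10)
        exact ⟨⟨h9, mem_insert_self _ _⟩, by rwa [erase_insert h5]⟩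
      · intro A hA
        simp only [mem_coe, mem_filter] at hA
        obtain ⟨⟨h5, h6⟩, h7⟩ := hA
        refine mem_filter.2 ⟨mem_edges.2 ⟨hc, notMem_erase c A, ?_⟩, rfl⟩
        simp only
        rw [insert_erase h6]
        exact ⟨fun h8 => absurd h8 h7, fun h8 => absurd h5 h8⟩
      · rintro ⟨A, c'⟩ hp
        obtain ⟨hp1, hp2⟩ := mem_filter.1 hp
        simp only at hp2
        subst hp2
        obtain ⟨_, h5, _⟩ := mem_edges.1 hp1
        simp only at h5
        simp only [Prod.mk.injEq, and_true]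
        exact erase_insert h5
      · intro A hA
        simp only [mem_coe, mem_filter] at hA
        exact insert_erase hA.1.2
    have h4 : #((U.filter fun A => c ∈ A).filter fun A => A.erase c ∈ U) =
        #(U.filter fun A => c ∉ A) := by
      refine card_nbij' (fun A => A.erase c) (fun A => insert c A) ?_ ?_ ?_ ?_
      · intro A hA
        simp only [mem_coe, mem_filter] at hA ⊢
        exact ⟨hA.2, notMem_erase c A⟩
      · intro A hA
        simp only [mem_coe, mem_filter] at hA ⊢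
        exact ⟨⟨hU A hA.1 c hc, mem_insert_self _ _⟩, by rw [erase_insert hA.2]; exact hA.1⟩
      · intro A hA
        simp only [mem_coe, mem_filter] at hA
        exact insert_erase hA.1.2
      · intro A hA
        simp only [mem_coe, mem_filter] at hA
        exact erase_insert hA.2
    have h5 : #(U.filter fun A => c ∈ A) =
        #((U.filter fun A => c ∈ A).filter fun A => A.erase c ∈ U) +
        #((U.filter fun A => c ∈ A).filter fun A => A.erase c ∉ U) :=
      (card_filter_add_card_filter_not _).symm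
    have h6 : ∑ A ∈ U, sg c A = (#(U.filter fun A => c ∈ A) : ℝ) - #(U.filter fun A => c ∉ A) := by
      unfold sg
      rw [sum_ite]
      simp
      ring
    rw [h6, h3, h5, h4]
    push_cast
    ring
  rw [h1]
  have h7 : ∑ A : Finset α, ∑ c ∈ K, sg c A = 0 := by
    rw [sum_comm]
    exact sum_eq_zero fun c _ => sum_sg c
  have h8 : ∑ A ∈ U, ∑ c ∈ K, sg c A + ∑ A ∈ Uᶜ, ∑ c ∈ K, sg c A = 0 := by
    rw [sum_add_sum_compl]
    exact h7
  have h9 : ∑ A ∈ U, |∑ c ∈ K, sg c A| + ∑ A ∈ Uᶜ, |∑ c ∈ K, sg c A| =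
      ∑ A : Finset α, |∑ c ∈ K, sg c A| := sum_add_sum_compl _ _
  have h10 : ∑ A ∈ U, ∑ c ∈ K, sg c A ≤ ∑ A ∈ U, |∑ c ∈ K, sg c A| :=
    sum_le_sum fun A _ => le_abs_self _
  have h11 : - ∑ A ∈ Uᶜ, ∑ c ∈ K, sg c A ≤ ∑ A ∈ Uᶜ, |∑ c ∈ K, sg c A| := by
    rw [← sum_neg_distrib]
    exact sum_le_sum fun A _ => neg_le_abs _
  have h12 := sum_abs_le K
  linarith

/-- the boundary of a family which is decreasing in the directions of `K` -/
lemma edges_down (K : Finset α) (U : Finset (Finset α))
    (hU : ∀ A, ∀ c ∈ K, insert c A ∈ U → A ∈ U) :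
    (#(edges K U) : ℝ) ≤ √(#K) / 2 * 2 ^ (Fintype.card α) := by
  rw [← edges_compl]
  apply edges_up
  intro A hA c hc
  rw [mem_compl] at hA ⊢
  exact fun h => hA (hU A c hc h)

/-- the family is a union of `T` families that are convex in the directions of `K` -/
lemma edges_pieces (K : Finset α) (T : ℕ) (F : Finset (Finset α)) (l : Finset α → Fin T)
    (hl : ∀ A ∈ F, ∀ B ∈ F, l A = l B → A \ K = B \ K → ∀ Y, A ⊆ Y → Y ⊆ B → Y ∈ F ∧ l Y = l A) :
    (#(edges K F) : ℝ) ≤ T * √(#K) * 2 ^ (Fintype.card α) := by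
  classical
  let U : Fin T → Finset (Finset α) := fun t =>
    univ.filter fun Y => ∃ A ∈ F, l A = t ∧ A ⊆ Y ∧ Y \ K = A \ K
  let D : Fin T → Finset (Finset α) := fun t =>
    univ.filter fun Y => ∃ A ∈ F, l A = t ∧ Y ⊆ A ∧ Y \ K = A \ K
  have hsub : edges K F ⊆ univ.biUnion fun t => edges K (U t) ∪ edges K (D t) := by
    rintro ⟨A, c⟩ hp
    obtain ⟨hcK, hcA, hiff⟩ := mem_edges.1 hp
    simp only at hcK hcA hiff
    have hK : insert c A \ K = A \ K := insert_sdiff_of_mem _ hcK
    rw [mem_biUnion]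
    by_cases hA : A ∈ F
    · have hA' : insert c A ∉ F := hiff.1 hA
      refine ⟨l A, mem_univ _, mem_union_right _ (mem_edges.2 ⟨hcK, hcA, ?_⟩)⟩
      simp only
      have h1 : A ∈ D (l A) := mem_filter.2 ⟨mem_univ _, A, hA, rfl, subset_rfl, rfl⟩
      have h2 : insert c A ∉ D (l A) := by
        intro h3
        obtain ⟨_, B, hB, hlB, hsubB, hKB⟩ := mem_filter.1 h3
        exact hA' (hl A hA B hB hlB.symm (by rw [← hK]; exact hKB) _ (subset_insert _ _) hsubB).1
      exact ⟨fun _ => h2, fun _ => h1⟩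
    · have hA' : insert c A ∈ F := by
        by_contra h1
        exact hA (hiff.2 h1)
      refine ⟨l (insert c A), mem_univ _, mem_union_left _ (mem_edges.2 ⟨hcK, hcA, ?_⟩)⟩
      simp only
      have h1 : insert c A ∈ U (l (insert c A)) :=
        mem_filter.2 ⟨mem_univ _, _, hA', rfl, subset_rfl, rfl⟩
      have h2 : A ∉ U (l (insert c A)) := by
        intro h3
        obtain ⟨_, B, hB, hlB, hsubB, hKB⟩ := mem_filter.1 h3
        exact hA (hl B hB _ hA' hlB (by rw [hK]; exact hKB.symm) _ hsubB (subset_insert _ _)).1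
      exact ⟨fun h3 => absurd h3 h2, fun h3 => absurd h1 h3⟩
  have hUt : ∀ t, (#(edges K (U t)) : ℝ) ≤ √(#K) / 2 * 2 ^ (Fintype.card α) := by
    intro t
    apply edges_up
    intro A hA c hc
    obtain ⟨_, B, hB, hlB, hsubB, hKB⟩ := mem_filter.1 hA
    exact mem_filter.2 ⟨mem_univ _, B, hB, hlB, hsubB.trans (subset_insert _ _), by
      rw [insert_sdiff_of_mem _ hc]; exact hKB⟩
  have hDt : ∀ t, (#(edges K (D t)) : ℝ) ≤ √(#K) / 2 * 2 ^ (Fintype.card α) := by
    intro t
    apply edges_down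
    intro A c hc hA
    obtain ⟨_, B, hB, hlB, hsubB, hKB⟩ := mem_filter.1 hA
    exact mem_filter.2 ⟨mem_univ _, B, hB, hlB, (subset_insert _ _).trans hsubB, by
      rw [insert_sdiff_of_mem _ hc] at hKB; exact hKB⟩
  have h1 : #(edges K F) ≤ ∑ t, (#(edges K (U t)) + #(edges K (D t))) :=
    (card_le_card hsub).trans (card_biUnion_le.trans (sum_le_sum fun t _ => card_union_le _ _))
  have h2 : (#(edges K F) : ℝ) ≤ ∑ t, ((#(edges K (U t)) : ℝ) + #(edges K (D t))) := by
    exact_mod_cast h1
  refine h2.trans ((sum_le_sum fun t _ => add_le_add (hUt t) (hDt t)).trans (le_of_eq ?_))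
  rw [sum_const, card_univ, Fintype.card_fin, nsmul_eq_mul]
  ring

end Pool.Agent.Q146.RI
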