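import Pool.Agent.Q146.RI.Bd

set_option autoImplicit false

/-!
# Fibres over the boxes along the diagonal
-/

namespace Pool.Agent.Q146.RI

open Finset

/-- The family `S` of subsets of `[N]^h` is good: there are `A ∈ S` and a nonempty `γ ⊆ [N]` with
`A ∩ γ^h = ∅` and `A ∪ γ^h ∈ S`. -/
def Good {h N : ℕ} (S : Finset (Finset (Fin h → Fin N))) : Prop :=
  ∃ A ∈ S, ∃ γ : Finset (Fin N), γ.Nonempty ∧
    Disjoint A (Fintype.piFinset (fun _ : Fin h => γ)) ∧
    A ∪ Fintype.piFinset (fun _ : Fin h => γ) ∈ S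

/-- The cells of `[N]^h` all of whose coordinates lie in one interval `[j m, (j+1) m)`. -/
def near {h N : ℕ} (m : ℕ) : Finset (Fin h → Fin N) :=
  univ.filter fun x => ∀ i i', (x i : ℕ) / m = (x i' : ℕ) / m

section box

variable {h N m : ℕ}

/-- the embedding of `[m]` as the interval number `j` -/
def emb (j : Fin (N / m)) : Fin m ↪ Fin N where
  toFun a := ⟨j * m + a, by
    have h1 := j.2
    have h2 := a.2
    have h3 : N / m * m ≤ N := Nat.div_mul_le_self N m
    have h4 : ((j : ℕ) + 1) * m ≤ N / m * m := Nat.mul_le_mul_right m h1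
    rw [add_mul, one_mul] at h4
    omega⟩
  inj' a b hab := by
    have h1 := congrArg Fin.val hab
    simp only at h1
    exact Fin.ext (by omega)

/-- the embedding of `[m]^h` as the box number `j` -/
def box (h : ℕ) (j : Fin (N / m)) : (Fin h → Fin m) ↪ (Fin h → Fin N) where
  toFun x := fun i => emb j (x i)
  inj' x y hxy := funext fun i => (emb j).injective (congrFun hxy i)

/-- the cells of the box number `j` -/
def cells (h : ℕ) (j : Fin (N / m)) : Finset (Fin h → Fin N) := univ.map (box h j)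

/-- the fibre of a family over the set `A₀` of cells outside of the box number `j` -/
def fib (j : Fin (N / m)) (F : Finset (Finset (Fin h → Fin N))) (A₀ : Finset (Fin h → Fin N)) :
    Finset (Finset (Fin h → Fin m)) :=
  univ.filter fun B => A₀ ∪ B.map (box h j) ∈ F

lemma mem_fib {j : Fin (N / m)} {F : Finset (Finset (Fin h → Fin N))}
    {A₀ : Finset (Fin h → Fin N)} {B : Finset (Fin h → Fin m)} :
    B ∈ fib j F A₀ ↔ A₀ ∪ B.map (box h j) ∈ F := by
  simp [fib]

lemma map_subset_cells (j : Fin (N / m)) (B : Finset (Fin h → Fin m)) :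
    B.map (box h j) ⊆ cells h j := map_subset_map.2 (subset_univ B)

lemma card_eq_sum_fib (j : Fin (N / m)) (F : Finset (Finset (Fin h → Fin N))) :
    #F = ∑ A₀ ∈ (cells h j)ᶜ.powerset, #(fib j F A₀) := by
  classical
  have h1 : #F = ∑ A₀ ∈ (cells h j)ᶜ.powerset, #(F.filter fun A => A \ cells h j = A₀) :=
    card_eq_sum_card_fiberwise fun A _ => by
      rw [mem_coe, mem_powerset]
      intro x hx
      rw [mem_compl]
      exact (mem_sdiff.1 hx).2
  rw [h1]
  refine sum_congr rfl fun A₀ hA₀ => ?_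
  have hA₀' : Disjoint A₀ (cells h j) := by
    rw [disjoint_left]
    intro x hx
    exact mem_compl.1 (mem_powerset.1 hA₀ hx)
  refine card_nbij' (fun A => A.preimage (box h j) (box h j).injective.injOn)
    (fun B => A₀ ∪ B.map (box h j)) ?_ ?_ ?_ ?_
  · intro A hA
    simp only [mem_coe, mem_filter] at hA
    rw [mem_coe, mem_fib]
    have h2 : A₀ ∪ (A.preimage (box h j) (box h j).injective.injOn).map (box h j) = A := by
      ext x
      rw [mem_union, mem_map]
      constructor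
      · rintro (h3 | ⟨y, hy, rfl⟩)
        · rw [← hA.2] at h3
          exact (mem_sdiff.1 h3).1
        · exact mem_preimage.1 hy
      · intro hx
        by_cases hc : x ∈ cells h j
        · obtain ⟨y, _, rfl⟩ := mem_map.1 hc
          exact Or.inr ⟨y, mem_preimage.2 hx, rfl⟩
        · left
          rw [← hA.2]
          exact mem_sdiff.2 ⟨hx, hc⟩
    rw [h2]
    exact hA.1
  · intro B hB
    rw [mem_coe, mem_fib] at hB
    simp only [mem_coe, mem_filter]
    refine ⟨hB, ?_⟩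
    rw [union_sdiff_distrib, sdiff_eq_self_of_disjoint hA₀',
      sdiff_eq_empty_iff_subset.2 (map_subset_cells j B), union_empty]
  · intro A hA
    simp only [mem_coe, mem_filter] at hA
    ext x
    simp only [mem_union, mem_map]
    constructor
    · rintro (h3 | ⟨y, hy, rfl⟩)
      · rw [← hA.2] at h3
        exact (mem_sdiff.1 h3).1
      · exact mem_preimage.1 hy
    · intro hx
      by_cases hc : x ∈ cells h j
      · obtain ⟨y, _, rfl⟩ := mem_map.1 hc
        exact Or.inr ⟨y, mem_preimage.2 hx, rfl⟩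
      · left
        rw [← hA.2]
        exact mem_sdiff.2 ⟨hx, hc⟩
  · intro B _
    ext y
    rw [mem_preimage, mem_union, mem_map']
    constructor
    · rintro (h3 | h3)
      · exact absurd (mem_map_of_mem _ (mem_univ y)) (disjoint_left.1 hA₀' h3)
      · exact h3
    · exact Or.inr

/-- fibres of families that are not good are not good -/
lemma fib_not_good (j : Fin (N / m)) (S : Finset (Finset (Fin h → Fin N))) (hS : ¬ Good S)
    (A₀ : Finset (Fin h → Fin N)) (hA₀ : Disjoint A₀ (cells h j)) : ¬ Good (fib j S A₀) := by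
  rintro ⟨B, hB, γ, hγ, hdis, hBγ⟩
  apply hS
  have h1 : (Fintype.piFinset (fun _ : Fin h => γ)).map (box h j) =
      Fintype.piFinset (fun _ : Fin h => γ.map (emb j)) := by
    ext x
    rw [mem_map, Fintype.mem_piFinset]
    constructor
    · rintro ⟨y, hy, rfl⟩ i
      exact mem_map_of_mem _ (Fintype.mem_piFinset.1 hy i)
    · intro hx
      have h2 : ∀ i, ∃ a ∈ γ, emb j a = x i := fun i => mem_map.1 (hx i)
      choose y hy hyx using h2
      exact ⟨y, Fintype.mem_piFinset.2 hy, funext hyx⟩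
  rw [mem_fib] at hB hBγ
  refine ⟨_, hB, γ.map (emb j), hγ.map, ?_, ?_⟩
  · rw [← h1, disjoint_union_left]
    exact ⟨disjoint_of_subset_right (map_subset_cells j _) hA₀, (disjoint_map _).2 hdis⟩
  · rw [← h1, union_assoc, ← map_union]
    exact hBγ

/-- a fibre that is neither empty nor everything contains an edge -/
lemma exists_edge (j : Fin (N / m)) (F : Finset (Finset (Fin h → Fin N)))
    (A₀ : Finset (Fin h → Fin N)) (hA₀ : Disjoint A₀ (cells h j))
    (h1 : fib j F A₀ ≠ ∅) (h2 : fib j F A₀ ≠ univ) :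
    ∃ p ∈ edges (cells h j) F, p.1 \ cells h j = A₀ := by
  classical
  by_contra hcon
  push Not at hcon
  -- the fibre is invariant under adding a cell
  have hinv : ∀ (B : Finset (Fin h → Fin m)) (c : Fin h → Fin m), c ∉ B →
      (B ∈ fib j F A₀ ↔ insert c B ∈ fib j F A₀) := by
    intro B c hc
    have h3 : box h j c ∉ A₀ ∪ B.map (box h j) := by
      rw [mem_union, mem_map']
      rintro (h4 | h4)
      · exact disjoint_left.1 hA₀ h4 (mem_map_of_mem _ (mem_univ c))
      · exact hc h4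
    have h5 : insert (box h j c) (A₀ ∪ B.map (box h j)) = A₀ ∪ (insert c B).map (box h j) := by
      rw [map_insert, union_insert]
    have h6 : (A₀ ∪ B.map (box h j)) \ cells h j = A₀ := by
      rw [union_sdiff_distrib, sdiff_eq_self_of_disjoint hA₀,
        sdiff_eq_empty_iff_subset.2 (map_subset_cells j B), union_empty]
    by_contra h7
    refine hcon (A₀ ∪ B.map (box h j), box h j c) (mem_edges.2 ⟨mem_map_of_mem _ (mem_univ c), h3, ?_⟩)
      h6
    simp only
    rw [h5]
    rw [mem_fib, mem_fib] at h7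
    tauto
  have hall : ∀ B : Finset (Fin h → Fin m), (B ∈ fib j F A₀ ↔ ∅ ∈ fib j F A₀) := by
    intro B
    induction B using Finset.induction_on with
    | empty => rfl
    | insert c B hc ih => rw [← hinv B c hc, ih]
  by_cases h3 : ∅ ∈ fib j F A₀
  · exact h2 (eq_univ_of_forall fun B => (hall B).2 h3)
  · exact h1 (eq_empty_of_forall_notMem fun B hB => h3 ((hall B).1 hB))

/-- **one box** -/
lemma one_box (j : Fin (N / m)) (F S : Finset (Finset (Fin h → Fin N))) (hS : ¬ Good S) (r : ℕ)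
    (hr : ∀ B : Finset (Finset (Fin h → Fin m)), ¬ Good B → #B ≤ r) :
    (#(S ∩ F) : ℝ) ≤ r / 2 ^ (m ^ h) * #F + r * #(edges (cells h j) F) := by
  classical
  -- the mixed fibres
  set P := (cells h j)ᶜ.powerset with hP
  have hdisj : ∀ A₀ ∈ P, Disjoint A₀ (cells h j) := by
    intro A₀ hA₀
    rw [disjoint_left]
    intro x hx
    exact mem_compl.1 (mem_powerset.1 hA₀ hx)
  set Mx := P.filter fun A₀ => fib j F A₀ ≠ ∅ ∧ fib j F A₀ ≠ univ with hMx
  have hMxc : #Mx ≤ #(edges (cells h j) F) := by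
    have h1 : ∀ A₀ ∈ Mx, ∃ p ∈ edges (cells h j) F, p.1 \ cells h j = A₀ := by
      intro A₀ hA₀
      obtain ⟨h2, h3, h4⟩ := mem_filter.1 hA₀
      exact exists_edge j F A₀ (hdisj A₀ h2) h3 h4
    have h2 : Mx ⊆ (edges (cells h j) F).image fun p => p.1 \ cells h j := by
      intro A₀ hA₀
      obtain ⟨p, hp, hpe⟩ := h1 A₀ hA₀
      exact mem_image.2 ⟨p, hp, hpe⟩
    exact (card_le_card h2).trans card_image_le
  have hcard : Fintype.card (Finset (Fin h → Fin m)) = 2 ^ (m ^ h) := by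
    rw [Fintype.card_finset, Fintype.card_pi, prod_const, card_univ, Fintype.card_fin,
      Fintype.card_fin]
  have hfibS : ∀ A₀ ∈ P, #(fib j (S ∩ F) A₀) ≤ r := by
    intro A₀ hA₀
    refine (card_le_card ?_).trans (hr _ (fib_not_good j S hS A₀ (hdisj A₀ hA₀)))
    intro B hB
    rw [mem_fib] at hB ⊢
    exact (mem_inter.1 hB).1
  have hfibF : ∀ A₀, fib j (S ∩ F) A₀ ⊆ fib j F A₀ := by
    intro A₀ B hB
    rw [mem_fib] at hB ⊢
    exact (mem_inter.1 hB).2
  have key : ∀ A₀ ∈ P, (#(fib j (S ∩ F) A₀) : ℝ) ≤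
      r / 2 ^ (m ^ h) * #(fib j F A₀) + (if A₀ ∈ Mx then (r : ℝ) else 0) := by
    intro A₀ hA₀
    by_cases h1 : fib j F A₀ = ∅
    · have h2 : fib j (S ∩ F) A₀ = ∅ := subset_empty.1 (h1 ▸ hfibF A₀)
      rw [h2, h1]
      simp only [card_empty, Nat.cast_zero, mul_zero, zero_add]
      split_ifs
      · positivity
      · exact le_rfl
    by_cases h2 : fib j F A₀ = univ
    · rw [h2, card_univ, hcard]
      push_cast
      rw [div_mul_cancel₀ _ (by positivity)]
      have h3 : (#(fib j (S ∩ F) A₀) : ℝ) ≤ r := by exact_mod_cast hfibS A₀ hA₀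
      split_ifs <;> linarith [Nat.cast_nonneg (α := ℝ) r]
    · have h3 : A₀ ∈ Mx := mem_filter.2 ⟨hA₀, h1, h2⟩
      rw [if_pos h3]
      have h4 : (#(fib j (S ∩ F) A₀) : ℝ) ≤ r := by exact_mod_cast hfibS A₀ hA₀
      have h5 : (0 : ℝ) ≤ r / 2 ^ (m ^ h) * #(fib j F A₀) := by positivity
      linarith
  have h1 : (#(S ∩ F) : ℝ) = ∑ A₀ ∈ P, (#(fib j (S ∩ F) A₀) : ℝ) := by
    rw [card_eq_sum_fib j (S ∩ F)]
    push_cast
    rfl
  have h2 : (#F : ℝ) = ∑ A₀ ∈ P, (#(fib j F A₀) : ℝ) := by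
    rw [card_eq_sum_fib j F]
    push_cast
    rfl
  rw [h1]
  refine (sum_le_sum key).trans ?_
  rw [sum_add_distrib, ← mul_sum, ← h2, ← sum_filter]
  have h3 : P.filter (fun A₀ => A₀ ∈ Mx) = Mx := by
    ext A₀
    rw [mem_filter]
    exact ⟨fun h4 => h4.2, fun h4 => ⟨(mem_filter.1 h4).1, h4⟩⟩
  rw [h3, sum_const, nsmul_eq_mul, mul_comm (#Mx : ℝ)]
  have h4 : (r : ℝ) * #Mx ≤ r * #(edges (cells h j) F) :=
    mul_le_mul_of_nonneg_left (by exact_mod_cast hMxc) (Nat.cast_nonneg _)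
  linarith

lemma div_emb (hm : 1 ≤ m) (j : Fin (N / m)) (a : Fin m) : ((emb j a : Fin N) : ℕ) / m = j := by
  change ((j : ℕ) * m + a) / m = j
  rw [mul_comm, Nat.mul_add_div (by omega), Nat.div_eq_of_lt a.2, add_zero]

lemma cells_subset (hm : 1 ≤ m) (j : Fin (N / m)) : cells h j ⊆ near m := by
  intro x hx
  obtain ⟨y, _, rfl⟩ := mem_map.1 hx
  refine mem_filter.2 ⟨mem_univ _, fun i i' => ?_⟩
  change ((emb j (y i) : Fin N) : ℕ) / m = ((emb j (y i') : Fin N) : ℕ) / m
  rw [div_emb hm, div_emb hm]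

lemma sum_edges_le (hh : 1 ≤ h) (hm : 1 ≤ m) (F : Finset (Finset (Fin h → Fin N))) :
    ∑ j : Fin (N / m), #(edges (cells h j) F) ≤ #(edges (near m) F) := by
  classical
  rw [← card_biUnion]
  · apply card_le_card
    intro p hp
    obtain ⟨j, _, hj⟩ := mem_biUnion.1 hp
    obtain ⟨h1, h2⟩ := mem_edges.1 hj
    exact mem_edges.2 ⟨cells_subset hm j h1, h2⟩
  · intro j _ j' _ hne
    change Disjoint _ _
    rw [disjoint_left]
    intro p hp hp'
    obtain ⟨y, _, hy⟩ := mem_map.1 (mem_edges.1 hp).1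
    obtain ⟨y', _, hy'⟩ := mem_map.1 (mem_edges.1 hp').1
    apply hne
    have h3 := div_emb hm j (y ⟨0, hh⟩)
    have h4 := div_emb hm j' (y' ⟨0, hh⟩)
    have h5 : emb j (y ⟨0, hh⟩) = emb j' (y' ⟨0, hh⟩) := by
      have h6 := congrFun (hy.trans hy'.symm) ⟨0, hh⟩
      exact h6
    rw [h5, h4] at h3
    exact Fin.ext h3.symm

/-- **the boundary form** -/
theorem boundary_form (hh : 1 ≤ h) (hm : 1 ≤ m) (hmN : m ≤ N)
    (F S : Finset (Finset (Fin h → Fin N))) (hS : ¬ Good S) (r : ℕ)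
    (hr : ∀ B : Finset (Finset (Fin h → Fin m)), ¬ Good B → #B ≤ r) :
    (#(S ∩ F) : ℝ) ≤ r / 2 ^ (m ^ h) * #F + r * #(edges (near m) F) / (N / m : ℕ) := by
  have hq : 1 ≤ N / m := (Nat.one_le_div_iff (by omega)).2 hmN
  have hq0 : (0 : ℝ) < (N / m : ℕ) := by exact_mod_cast hq
  have h1 : ∑ j : Fin (N / m), (#(S ∩ F) : ℝ) ≤
      ∑ j : Fin (N / m), ((r : ℝ) / 2 ^ (m ^ h) * #F + r * #(edges (cells h j) F)) :=
    sum_le_sum fun j _ => one_box j F S hS r hr
  rw [sum_const, card_univ, Fintype.card_fin, nsmul_eq_mul, sum_add_distrib, sum_const, card_univ,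
    Fintype.card_fin, nsmul_eq_mul, ← mul_sum] at h1
  have h2 : ∑ j : Fin (N / m), (#(edges (cells h j) F) : ℝ) ≤ #(edges (near m) F) := by
    exact_mod_cast sum_edges_le hh hm F
  have h3 := mul_le_mul_of_nonneg_left h2 (Nat.cast_nonneg (α := ℝ) r)
  have h4 : ((N / m : ℕ) : ℝ) * #(S ∩ F) ≤
      (N / m : ℕ) * (r / 2 ^ (m ^ h) * #F + r * #(edges (near m) F) / (N / m : ℕ)) := by
    rw [mul_add, mul_div_cancel₀ _ hq0.ne']
    linarith
  exact le_of_mul_le_mul_left h4 hq0

lemma card_near (hh : 1 ≤ h) (hm : 1 ≤ m) : #(near (h := h) (N := N) m) ≤ N * m ^ (h - 1) := by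
  classical
  obtain ⟨d, rfl⟩ : ∃ d, h = d + 1 := ⟨h - 1, by omega⟩
  rw [Nat.add_sub_cancel]
  have h1 : ∀ x ∈ near (h := d + 1) (N := N) m, (x 0, fun i : Fin d =>
      (⟨(x i.succ : ℕ) % m, Nat.mod_lt _ (by omega)⟩ : Fin m)) ∈
      (univ : Finset (Fin N × (Fin d → Fin m))) := fun _ _ => mem_univ _
  have h2 : #(near (h := d + 1) (N := N) m) ≤ #(univ : Finset (Fin N × (Fin d → Fin m))) := by
    refine card_le_card_of_injOn _ h1 ?_
    intro x hx y hy hxy
    have hx' := (mem_filter.1 (mem_coe.1 hx)).2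
    have hy' := (mem_filter.1 (mem_coe.1 hy)).2
    simp only [Prod.mk.injEq] at hxy
    obtain ⟨h3, h4⟩ := hxy
    funext i
    refine Fin.cases h3 (fun k => ?_) i
    have h5 := congrArg Fin.val (congrFun h4 k)
    simp only at h5
    have h6 : (x k.succ : ℕ) / m = (y k.succ : ℕ) / m := by
      rw [hx' k.succ 0, hy' k.succ 0, h3]
    apply Fin.ext
    rw [← Nat.div_add_mod (x k.succ : ℕ) m, ← Nat.div_add_mod (y k.succ : ℕ) m, h5, h6]
  refine h2.trans (le_of_eq ?_)
  rw [card_univ, Fintype.card_prod, Fintype.card_fin, Fintype.card_pi, prod_const, card_univ,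
    Fintype.card_fin, Fintype.card_fin]

end box

end Pool.Agent.Q146.RI
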