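import Pool.Agent.Q146.RI.Box

set_option autoImplicit false

/-!
# The relative form for families with few convex pieces near the diagonal
-/

namespace Pool.Agent.Q146.RI

open Finset

variable {h N : ℕ}

/-- The section of `F` over the set `A₀` of cells outside of `K`: the sets `B ⊆ K` with
`A₀ ∪ B ∈ F`. -/
def sect (K : Finset (Fin h → Fin N)) (F : Finset (Finset (Fin h → Fin N)))
    (A₀ : Finset (Fin h → Fin N)) : Finset (Finset (Fin h → Fin N)) :=
  univ.filter fun B => B ⊆ K ∧ A₀ ∪ B ∈ F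

/-- Every section of `F` over a set of cells outside of `K` has a partition into `T` convex
families. -/
def ConvexOn (K : Finset (Fin h → Fin N)) (T : ℕ) (F : Finset (Finset (Fin h → Fin N))) : Prop :=
  ∀ A₀, Disjoint A₀ K → Q93.FA.Pieces T (sect K F A₀)

theorem edges_of_convexOn (K : Finset (Fin h → Fin N)) (T : ℕ)
    (F : Finset (Finset (Fin h → Fin N))) (hF : ConvexOn K T F) :
    (#(edges K F) : ℝ) ≤ T * √(#K) * 2 ^ (N ^ h) := by
  classical
  choose l hl using hF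
  have hcongr : ∀ A₀ A₁ (e : A₀ = A₁) (p : Disjoint A₀ K) (q : Disjoint A₁ K), l A₀ p = l A₁ q := by
    intro A₀ A₁ e p q
    subst e
    rfl
  have hcard : Fintype.card (Fin h → Fin N) = N ^ h := by
    rw [Fintype.card_pi, prod_const, card_univ, Fintype.card_fin, Fintype.card_fin]
  rw [← hcard]
  refine edges_pieces K T F (fun A => l (A \ K) sdiff_disjoint (A ∩ K)) ?_
  intro A hA B hB hlAB hAB Y hAY hYB
  have hYK : Y \ K = A \ K := by
    apply Subset.antisymm
    · rw [hAB]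
      exact sdiff_subset_sdiff hYB subset_rfl
    · exact sdiff_subset_sdiff hAY subset_rfl
  have hdis : Disjoint (A \ K) K := sdiff_disjoint
  have hmem : ∀ Z ∈ F, Z \ K = A \ K → Z ∩ K ∈ sect K F (A \ K) := by
    intro Z hZ hZK
    refine mem_filter.2 ⟨mem_univ _, inter_subset_right, ?_⟩
    rw [← hZK, sdiff_union_inter]
    exact hZ
  change l (A \ K) sdiff_disjoint (A ∩ K) = l (B \ K) sdiff_disjoint (B ∩ K) at hlAB
  rw [← hcongr _ _ hAB hdis] at hlAB
  have h1 := hl (A \ K) hdis (l (A \ K) hdis (A ∩ K)) (A ∩ K)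
    (mem_filter.2 ⟨hmem A hA rfl, rfl⟩) (B ∩ K)
    (mem_filter.2 ⟨hmem B hB hAB.symm, hlAB.symm⟩) (Y ∩ K)
    (inter_subset_inter_right hAY) (inter_subset_inter_right hYB)
  obtain ⟨h2, h3⟩ := mem_filter.1 h1
  obtain ⟨_, _, h4⟩ := mem_filter.1 h2
  rw [← hYK, sdiff_union_inter] at h4
  refine ⟨h4, ?_⟩
  change l (Y \ K) sdiff_disjoint (Y ∩ K) = l (A \ K) hdis (A ∩ K)
  rw [hcongr _ _ hYK sdiff_disjoint hdis]
  exact h3

/-- the additive form for a fixed `m` -/
theorem additive {m : ℕ} (hh : 1 ≤ h) (hm : 1 ≤ m) (hmN : m ≤ N) (T : ℕ)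
    (F S : Finset (Finset (Fin h → Fin N))) (hF : ConvexOn (near m) T F) (hS : ¬ Good S) (r : ℕ)
    (hr : ∀ B : Finset (Finset (Fin h → Fin m)), ¬ Good B → #B ≤ r) :
    (#(S ∩ F) : ℝ) ≤ r / 2 ^ (m ^ h) * #F + 2 * m * r * T * √(m ^ (h - 1)) / √N * 2 ^ (N ^ h) := by
  have h1 := boundary_form hh hm hmN F S hS r hr
  have h2 := edges_of_convexOn (near m) T F hF
  refine h1.trans (add_le_add le_rfl ?_)
  have hN : (0 : ℝ) < N := by
    have : 1 ≤ N := hm.trans hmN
    exact_mod_cast this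
  have hq : 1 ≤ N / m := (Nat.one_le_div_iff (by omega)).2 hmN
  have hq0 : (0 : ℝ) < (N / m : ℕ) := by exact_mod_cast hq
  have h3 : (N : ℝ) ≤ 2 * m * (N / m : ℕ) := by
    have h4 : N < (N / m + 1) * m := by
      have := Nat.lt_div_mul_add (a := N) (b := m) (by omega)
      nlinarith
    have h5 : N ≤ 2 * m * (N / m) := by nlinarith
    exact_mod_cast h5
  have h4 : √(#(near (h := h) (N := N) m) : ℝ) ≤ √N * √(m ^ (h - 1)) := by
    rw [← Real.sqrt_mul hN.le]
    apply Real.sqrt_le_sqrt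
    exact_mod_cast card_near hh hm
  have h5 : (#(edges (near (h := h) (N := N) m) F) : ℝ) ≤
      T * (√N * √(m ^ (h - 1))) * 2 ^ (N ^ h) := by
    refine h2.trans ?_
    gcongr
  rw [div_le_iff₀ hq0]
  have h6 : √(N : ℝ) * √N = N := Real.mul_self_sqrt hN.le
  have h7 : (0 : ℝ) < √N := Real.sqrt_pos.2 hN
  calc (r : ℝ) * #(edges (near (h := h) (N := N) m) F)
      ≤ r * (T * (√N * √(m ^ (h - 1))) * 2 ^ (N ^ h)) :=
        mul_le_mul_of_nonneg_left h5 (Nat.cast_nonneg _)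
    _ = r * T * √(m ^ (h - 1)) * 2 ^ (N ^ h) / √N * N := by
        have h8 : ∀ a : ℝ, a / √N * N = a * √N := by
          intro a
          nth_rewrite 2 [← h6]
          rw [← mul_assoc, div_mul_cancel₀ _ h7.ne']
        rw [h8]
        ring
    _ ≤ r * T * √(m ^ (h - 1)) * 2 ^ (N ^ h) / √N * (2 * m * (N / m : ℕ)) :=
        mul_le_mul_of_nonneg_left h3 (by positivity)
    _ = _ := by ring

/-- The conjecture holds in dimension `h` for all densities above `θ`; `Q1` is the statement that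
`Above h 0` holds for all `h ≥ 1`. -/
def Above (h : ℕ) (θ : ℝ) : Prop :=
  ∀ δ : ℝ, θ < δ → ∃ N : ℕ, 1 ≤ N ∧ ∀ S : Finset (Finset (Fin h → Fin N)),
    δ * (2 : ℝ) ^ (N ^ h) < #S → Good S

/-- the relative form -/
def Relative (h : ℕ) (θ' : ℝ) : Prop :=
  ∃ m : ℕ, 1 ≤ m ∧ ∃ C : ℝ, ∀ N T : ℕ, 1 ≤ N → ∀ F S : Finset (Finset (Fin h → Fin N)),
    ConvexOn (near m) T F → ¬ Good S →
      (#(S ∩ F) : ℝ) ≤ θ' * #F + C * T / √N * 2 ^ (N ^ h)

theorem relative (hh : 1 ≤ h) (θ θ' : ℝ) (hθ0 : 0 ≤ θ) (hθ : θ < θ') (ha : Above h θ) :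
    Relative h θ' := by
  classical
  obtain ⟨m, hm, hgood⟩ := ha θ' hθ
  have hθ'0 : 0 ≤ θ' := by linarith
  set r : ℕ := ⌊θ' * 2 ^ (m ^ h)⌋₊ with hr
  have hr1 : (r : ℝ) ≤ θ' * 2 ^ (m ^ h) := Nat.floor_le (by positivity)
  have hr2 : ∀ B : Finset (Finset (Fin h → Fin m)), ¬ Good B → #B ≤ r := by
    intro B hB
    apply Nat.le_floor
    by_contra hcon
    push Not at hcon
    exact hB (hgood B hcon)
  set C : ℝ := 2 * m * r * √(m ^ (h - 1)) + √m with hC
  refine ⟨m, hm, C, fun N T hN F S hF hS => ?_⟩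
  have hN0 : (0 : ℝ) < √N := Real.sqrt_pos.2 (by exact_mod_cast hN)
  rcases le_or_gt m N with hmN | hNm
  · have h1 := additive hh hm hmN T F S hF hS r hr2
    have h2 : (r : ℝ) / 2 ^ (m ^ h) * #F ≤ θ' * #F := by
      apply mul_le_mul_of_nonneg_right _ (Nat.cast_nonneg _)
      rw [div_le_iff₀ (by positivity)]
      exact hr1
    have h3 : 2 * m * r * T * √(m ^ (h - 1)) / √N * 2 ^ (N ^ h) ≤ C * T / √N * 2 ^ (N ^ h) := by
      apply mul_le_mul_of_nonneg_right _ (by positivity)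
      apply div_le_div_of_nonneg_right _ hN0.le
      rw [hC]
      have h4 : (0 : ℝ) ≤ √m * T := by positivity
      nlinarith
    linarith
  · rcases Nat.eq_zero_or_pos T with hT | hT
    · -- no pieces: the family is empty
      have hF0 : F = ∅ := by
        rw [eq_empty_iff_forall_notMem]
        intro A hA
        obtain ⟨l, _⟩ := hF (A \ near m) sdiff_disjoint
        have := (l ∅).2
        omega
      rw [hF0, inter_empty]
      simp only [card_empty, Nat.cast_zero, mul_zero, zero_add]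
      rw [hT]
      simp
    · have h1 : (#(S ∩ F) : ℝ) ≤ 2 ^ (N ^ h) := by
        have := card_le_univ (S ∩ F)
        rw [Fintype.card_finset, Fintype.card_pi, prod_const, card_univ, Fintype.card_fin,
          Fintype.card_fin] at this
        exact_mod_cast this
      have h2 : (1 : ℝ) ≤ C * T / √N := by
        rw [le_div_iff₀ hN0, one_mul]
        have h3 : √(N : ℝ) ≤ √m := Real.sqrt_le_sqrt (by exact_mod_cast hNm.le)
        have h4 : (1 : ℝ) ≤ T := by exact_mod_cast hT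
        have h5 : √(m : ℝ) ≤ C := by
          rw [hC]
          have : (0 : ℝ) ≤ 2 * m * r * √(m ^ (h - 1)) := by positivity
          linarith
        have h6 : (0 : ℝ) ≤ C := (Real.sqrt_nonneg _).trans h5
        nlinarith
      have h3 : (0 : ℝ) ≤ θ' * #F := by positivity
      have h4 : (0 : ℝ) < 2 ^ (N ^ h) := by positivity
      nlinarith

/-! ### Level sets -/

/-- the sets with `k` cells in `K` -/
def level (K : Finset (Fin h → Fin N)) (k : ℕ) : Finset (Finset (Fin h → Fin N)) :=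
  univ.filter fun A => #(A ∩ K) = k

lemma level_convex (K : Finset (Fin h → Fin N)) (k : ℕ) : ConvexOn K 1 (level K k) := by
  classical
  intro A₀ hA₀
  refine ⟨fun _ => 0, ?_⟩
  intro t A hA B hB Y hAY hYB
  rw [mem_filter] at hA hB ⊢
  refine ⟨?_, hA.2⟩
  obtain ⟨_, hA1, hA2⟩ := mem_filter.1 hA.1
  obtain ⟨_, hB1, hB2⟩ := mem_filter.1 hB.1
  have hYK : Y ⊆ K := hYB.trans hB1
  have hcap : ∀ Z, Z ⊆ K → (A₀ ∪ Z) ∩ K = Z := by
    intro Z hZ
    rw [union_inter_distrib_right, disjoint_iff_inter_eq_empty.1 hA₀, empty_union,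
      inter_eq_left.2 hZ]
  refine mem_filter.2 ⟨mem_univ _, hYK, mem_filter.2 ⟨mem_univ _, ?_⟩⟩
  have h1 := (mem_filter.1 hA2).2
  have h2 := (mem_filter.1 hB2).2
  rw [hcap _ hA1] at h1
  rw [hcap _ hB1] at h2
  rw [hcap _ hYK]
  have h3 := card_le_card hAY
  have h4 := card_le_card hYB
  omega

lemma level_not_good (m k : ℕ) : ¬ Good (level (h := h) (N := N) (near m) k) := by
  classical
  rintro ⟨A, hA, γ, ⟨a, ha⟩, hdis, hmem⟩
  have h1 := (mem_filter.1 hA).2
  have h2 := (mem_filter.1 hmem).2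
  have hmema : (fun _ : Fin h => a) ∈ Fintype.piFinset (fun _ : Fin h => γ) :=
    Fintype.mem_piFinset.2 fun _ => ha
  have hnear : (fun _ : Fin h => a) ∈ near (h := h) (N := N) m :=
    mem_filter.2 ⟨mem_univ _, fun _ _ => rfl⟩
  have hssub : A ∩ near m ⊂ (A ∪ Fintype.piFinset (fun _ : Fin h => γ)) ∩ near m := by
    refine (ssubset_iff_of_subset (inter_subset_inter_right subset_union_left)).2
      ⟨fun _ => a, mem_inter.2 ⟨mem_union_right _ hmema, hnear⟩, fun h3 => ?_⟩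
    exact disjoint_left.1 hdis (mem_inter.1 h3).1 hmema
  have := card_lt_card hssub
  omega

lemma sg_level (K : Finset (Fin h → Fin N)) (A : Finset (Fin h → Fin N)) :
    ∑ c ∈ K, sg c A = 2 * #(A ∩ K) - #K := by
  classical
  unfold sg
  rw [sum_ite, sum_const, sum_const, nsmul_eq_mul, nsmul_eq_mul]
  have h1 : K.filter (fun c => c ∈ A) = A ∩ K := by
    ext c
    simp [and_comm]
  have h2 := card_filter_add_card_filter_not (s := K) (fun c => c ∈ A)
  rw [h1] at h2 ⊢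
  have h3 : (#(K.filter fun c => c ∉ A) : ℝ) = #K - #(A ∩ K) := by
    rw [← h2]
    push_cast
    ring
  rw [h3]
  ring

theorem exists_level (K : Finset (Fin h → Fin N)) (hK : 1 ≤ #K) :
    ∃ k, (2 : ℝ) ^ (N ^ h) / (4 * √(#K)) ≤ #(level K k) := by
  classical
  have hcard : Fintype.card (Fin h → Fin N) = N ^ h := by
    rw [Fintype.card_pi, prod_const, card_univ, Fintype.card_fin, Fintype.card_fin]
  set n := #K with hn
  have hn0 : (1 : ℝ) ≤ n := by exact_mod_cast hK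
  have hs1 : (1 : ℝ) ≤ √n := Real.one_le_sqrt.2 hn0
  have hsq : √(n : ℝ) * √n = n := Real.mul_self_sqrt (by linarith)
  -- the sets that are far from the middle
  set Far := (univ : Finset (Finset (Fin h → Fin N))).filter
    (fun A => 4 * (n : ℝ) < (∑ c ∈ K, sg c A) ^ 2) with hFar
  set Close := (univ : Finset (Finset (Fin h → Fin N))).filter
    (fun A => ¬ 4 * (n : ℝ) < (∑ c ∈ K, sg c A) ^ 2) with hClose
  have h1 : (4 * (n : ℝ)) * #Far ≤ n * 2 ^ (N ^ h) := by
    have h2 := sum_sq K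
    rw [hcard, ← hn] at h2
    rw [← h2]
    calc 4 * (n : ℝ) * #Far = ∑ A ∈ Far, 4 * (n : ℝ) := by rw [sum_const, nsmul_eq_mul]; ring
      _ ≤ ∑ A ∈ Far, (∑ c ∈ K, sg c A) ^ 2 := sum_le_sum fun A hA => (mem_filter.1 hA).2.le
      _ ≤ ∑ A : Finset (Fin h → Fin N), (∑ c ∈ K, sg c A) ^ 2 :=
          sum_le_sum_of_subset_of_nonneg (subset_univ _) fun _ _ _ => sq_nonneg _
  have h2 : (#Far : ℝ) ≤ 2 ^ (N ^ h) / 4 := by
    have h3 : (n : ℝ) * (4 * #Far) ≤ n * 2 ^ (N ^ h) := by linarith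
    have h4 := le_of_mul_le_mul_left h3 (by linarith)
    linarith
  have h3 : (#Far : ℝ) + #Close = 2 ^ (N ^ h) := by
    have h4 := card_filter_add_card_filter_not (s := (univ : Finset (Finset (Fin h → Fin N))))
      (fun A => 4 * (n : ℝ) < (∑ c ∈ K, sg c A) ^ 2)
    rw [card_univ, Fintype.card_finset, hcard] at h4
    rw [← Nat.cast_add, hFar, hClose, h4]
    push_cast
    rfl
  -- the levels near the middle
  set L := (range (n + 1)).filter (fun k : ℕ => (2 * (k : ℝ) - n) ^ 2 ≤ 4 * n) with hL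
  have hLc : (#L : ℝ) ≤ 2 * √n + 1 := by
    have h4 : L ⊆ Icc ⌈((n : ℝ) / 2 - √n)⌉₊ ⌊((n : ℝ) / 2 + √n)⌋₊ := by
      intro k hk
      obtain ⟨_, hk2⟩ := mem_filter.1 hk
      have h5 : (2 * (k : ℝ) - n) ^ 2 ≤ (2 * √n) ^ 2 := by
        rw [mul_pow, Real.sq_sqrt (by linarith)]
        linarith
      have h6 := abs_le_of_sq_le_sq' h5 (by positivity)
      rw [mem_Icc]
      constructor
      · apply Nat.ceil_le.2
        linarith [h6.1]
      · apply Nat.le_floor
        linarith [h6.2]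
    have h5 := card_le_card h4
    rw [Nat.card_Icc] at h5
    have h6 : (⌊((n : ℝ) / 2 + √n)⌋₊ : ℝ) ≤ n / 2 + √n := Nat.floor_le (by positivity)
    have h7 : (n : ℝ) / 2 - √n ≤ ⌈((n : ℝ) / 2 - √n)⌉₊ := Nat.le_ceil _
    rcases le_or_gt ⌈((n : ℝ) / 2 - √n)⌉₊ (⌊((n : ℝ) / 2 + √n)⌋₊ + 1) with h8 | h8
    · have h9 : (#L : ℝ) ≤ (⌊((n : ℝ) / 2 + √n)⌋₊ + 1 - ⌈((n : ℝ) / 2 - √n)⌉₊ : ℕ) := by
        exact_mod_cast h5
      rw [Nat.cast_sub h8] at h9
      push_cast at h9
      linarith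
    · have h9 : #L = 0 := by omega
      rw [h9]
      push_cast
      linarith
  have h4 : #Close ≤ ∑ k ∈ L, #(level K k) := by
    have h5 : Close ⊆ L.biUnion fun k => level K k := by
      intro A hA
      have h6 := (mem_filter.1 hA).2
      rw [not_lt, sg_level, ← hn] at h6
      refine mem_biUnion.2 ⟨#(A ∩ K), mem_filter.2 ⟨mem_range.2 ?_, h6⟩,
        mem_filter.2 ⟨mem_univ _, rfl⟩⟩
      exact Nat.lt_succ_of_le (card_le_card inter_subset_right)
    exact (card_le_card h5).trans card_biUnion_le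
  by_contra hcon
  push Not at hcon
  have h5 : (#Close : ℝ) ≤ ∑ k ∈ L, (#(level K k) : ℝ) := by exact_mod_cast h4
  have h6 : ∑ k ∈ L, (#(level K k) : ℝ) ≤ ∑ k ∈ L, (2 : ℝ) ^ (N ^ h) / (4 * √n) :=
    sum_le_sum fun k _ => (hcon k).le
  rw [sum_const, nsmul_eq_mul] at h6
  have h7 : (0 : ℝ) < 2 ^ (N ^ h) := by positivity
  have h8 : (#L : ℝ) * ((2 : ℝ) ^ (N ^ h) / (4 * √n)) ≤
      (2 * √n + 1) * ((2 : ℝ) ^ (N ^ h) / (4 * √n)) :=
    mul_le_mul_of_nonneg_right hLc (by positivity)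
  have h9 : (2 * √n + 1) * ((2 : ℝ) ^ (N ^ h) / (4 * √n)) ≤ 3 / 4 * 2 ^ (N ^ h) := by
    rw [mul_div_assoc', div_le_iff₀ (by positivity)]
    nlinarith
  have h10 : (#Close : ℝ) ≤ 3 / 4 * 2 ^ (N ^ h) := by linarith
  -- equality cannot hold
  have h11 : (#Close : ℝ) = 3 / 4 * 2 ^ (N ^ h) := by linarith
  have h12 : L.Nonempty := by
    rw [nonempty_iff_ne_empty]
    intro h13
    rw [h13, sum_empty] at h5
    have : (0 : ℝ) < 3 / 4 * 2 ^ (N ^ h) := by positivity
    linarith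
  have h13 : ∑ k ∈ L, (#(level K k) : ℝ) < ∑ k ∈ L, (2 : ℝ) ^ (N ^ h) / (4 * √n) :=
    sum_lt_sum_of_nonempty h12 fun k _ => hcon k
  rw [sum_const, nsmul_eq_mul] at h13
  linarith

end Pool.Agent.Q146.RI
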